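import Pool.Agent.Helper38.RS.Goals4

/-!
# Project RS (MP_fc6b1e_nt): comparison of `Sel(ab)` and `Sel(a)`
-/

namespace Pool.Agent.Helper72.RS

open NumberField Polynomial Module IsDedekindDomain TensorProduct Pool.Agent.Helper51.SigLeo
open Pool.Agent.Helper38.RS

theorem ordv_mul {M : Type} [Field M] [NumberField M] (v : HeightOneSpectrum (𝓞 M))
    {x y : M} (hx : x ≠ 0) (hy : y ≠ 0) : ordv v (x * y) = ordv v x + ordv v y := by
  unfold ordv
  rw [map_mul, WithZero.log_mul ((Valuation.ne_zero_iff _).2 hx) ((Valuation.ne_zero_iff _).2 hy)]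
  ring

theorem ordv_eq_zero {M : Type} [Field M] [NumberField M] (v : HeightOneSpectrum (𝓞 M))
    {x : M} (hx : v.valuation M x = 1) : ordv v x = 0 := by
  unfold ordv
  rw [hx, WithZero.log_one, neg_zero]

theorem s_cmp (h1 : S_NFR) : S_CMP := by
  intro k _ _ _ L K M _ _ _ _ _ _ m δ ζ Φ P hPhi hord hfr T a b ha h8 hb hab x hx hfree
  have hinj : Function.Injective (algebraMap K M) := (algebraMap K M).injective
  have haK : (a : K) ≠ 0 := fun h => ha (by exact_mod_cast h)
  have hbK : (b : K) ≠ 0 := fun h => hb (by exact_mod_cast h)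
  have haM : algebraMap K M (a : K) ≠ 0 := fun h => haK (hinj (by rw [h, map_zero]))
  have hbM : algebraMap K M (b : K) ≠ 0 := fun h => hbK (hinj (by rw [h, map_zero]))
  have habM : algebraMap K M ((a * b : 𝓞 K) : K) = algebraMap K M (a : K) * algebraMap K M (b : K) := by
    rw [← map_mul]; rfl
  have hmul : ∀ v : HeightOneSpectrum (𝓞 M), ordv v (algebraMap K M ((a * b : 𝓞 K) : K))
      = ordv v (algebraMap K M (a : K)) + ordv v (algebraMap K M (b : K)) := by
    intro v
    rw [habM, ordv_mul v haM hbM]
  refine ⟨hx.pol, ?_, ?_, hx.sig⟩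
  · intro v hv
    by_cases hbv : Even (ordv v (algebraMap K M (b : K)))
    · exact hx.even v (by rw [hmul v]; exact hv.add hbv)
    · rw [Int.not_even_iff_odd] at hbv
      by_cases hf : FreeP K v
      · exact hfree v hbv hf
      · exact h1 k K M m δ ζ Φ P hPhi hord hfr x hx.pol v hf
  · intro v hv
    have hint : ∀ z : 𝓞 K, v.valuation M (algebraMap K M (z : K)) ≤ 1 := by
      intro z
      have h2 : algebraMap K M (z : K) = algebraMap (𝓞 M) M (algebraMap (𝓞 K) (𝓞 M) z) := rfl
      rw [h2]
      exact v.valuation_le_one _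
    have ha1 : v.valuation M (algebraMap K M (a : K)) < 1 := by
      refine lt_of_le_of_ne (hint a) (fun h => hv ?_)
      rw [ordv_eq_zero v h]
      exact ⟨0, by simp⟩
    obtain ⟨c, hc⟩ := hab
    have hb1 : v.valuation M (algebraMap K M (b : K) - 1) < 1 := by
      have h3 : algebraMap K M (b : K) - 1
          = algebraMap K M ((8 * c : 𝓞 K) : K) * algebraMap K M (a : K) := by
        have h4 : ((b - 1 : 𝓞 K) : K) = ((8 * a * c : 𝓞 K) : K) := by rw [hc]
        have h5 : algebraMap K M (b : K) - 1 = algebraMap K M ((b - 1 : 𝓞 K) : K) := by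
          rw [← map_one (algebraMap K M), ← map_sub]; rfl
        rw [h5, h4, ← map_mul]
        congr 1
        have h6 : (8 * a * c : 𝓞 K) = (8 * c) * a := by ring
        rw [h6]; rfl
      rw [h3, map_mul]
      exact lt_of_le_of_lt (mul_le_of_le_one_left' (hint _)) ha1
    have hbv1 : v.valuation M (algebraMap K M (b : K)) = 1 := by
      have h7 := Valuation.map_add_eq_of_lt_right (v.valuation M) (x := algebraMap K M (b : K) - 1)
        (y := 1) (by rw [map_one]; exact hb1)
      rw [sub_add_cancel, map_one] at h7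
      exact h7
    have hab0 : ¬ Even (ordv v (algebraMap K M ((a * b : 𝓞 K) : K))) := by
      rw [hmul v, ordv_eq_zero v hbv1, add_zero]
      exact hv
    rcases hx.tame v hab0 with h | ⟨y, hy⟩
    · exact Or.inl h
    · refine Or.inr ⟨y, ?_⟩
      have h8 : -(algebraMap K M (a : K) * (x : M)) * y ^ 2 - 1
          = (algebraMap K M (b : K))⁻¹ *
            ((-(algebraMap K M ((a * b : 𝓞 K) : K) * (x : M)) * y ^ 2 - 1)
              - (algebraMap K M (b : K) - 1)) := by
        rw [habM]
        field_simp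
        ring
      rw [h8, map_mul, map_inv₀, hbv1, inv_one, one_mul]
      exact Valuation.map_sub_lt _ hy hb1

end Pool.Agent.Helper72.RS
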